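import Pool.Agent.TH575.OM.AvgU
import Pool.Agent.TH575.OM.Cls
import Pool.Agent.TH575.OM.FinO
import Pool.Agent.TH445.OI.A15

/-!
Products of functions of the numbers of prime factors at almost all short shifts.
-/

set_option autoImplicit false

namespace Pool.Agent.J4.H65.SO

open Finset
open ArithmeticFunction (cardFactors)
open Pool.Agent.TH575.OM
open Pool.Agent.H373R2.T7 (energy exI)
open Pool.Agent.H807R2.Dav (ee norm_ee)

/-- the mean of a function of the number of prime factors -/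
noncomputable def MC (a : ℕ → ℂ) (X : ℕ) : ℂ := (∑ n ∈ Icc 1 X, a (cardFactors n)) / (X : ℂ)

lemma Mn_nat (a : ℕ → ℝ) (X : ℕ) : Mn a X = (∑ n ∈ Icc 1 X, a (cardFactors n)) / X := by
  unfold Mn SA
  rw [Nat.floor_natCast]
  simp only [Nat.mod_one, if_true]

lemma MC_bd (a : ℕ → ℂ) (B : ℝ) (hB : 0 ≤ B) (ha : ∀ l, ‖a l‖ ≤ B) (X : ℕ) : ‖MC a X‖ ≤ B := by
  unfold MC
  rw [norm_div, Complex.norm_natCast]
  rcases Nat.eq_zero_or_pos X with h | h
  · rw [h]; simpa using hB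
  · have hX : (0 : ℝ) < X := by exact_mod_cast h
    rw [div_le_iff₀ hX]
    refine (norm_sum_le _ _).trans ((sum_le_card_nsmul _ _ B fun n _ => ha _).trans (le_of_eq ?_))
    rw [Nat.card_Icc, nsmul_eq_mul, Nat.add_sub_cancel, mul_comm]

lemma MC_split (a : ℕ → ℂ) (X : ℕ) : MC a X = ((Mn (fun l => (a l).re) X : ℝ) : ℂ) + ((Mn (fun l => (a l).im) X : ℝ) : ℂ) * Complex.I := by
  rw [Mn_nat, Mn_nat]
  unfold MC
  push_cast
  rw [div_mul_eq_mul_div, ← add_div, sum_mul, ← sum_add_distrib]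
  congr 1
  apply sum_congr rfl
  intro n _
  exact (Complex.re_add_im _).symm

lemma phi_bd (X : ℕ) (H : ℝ) (f T : ℕ → ℂ) (α B : ℝ) (hB : 0 ≤ B) (hf : ∀ n, ‖f n‖ ≤ B) (hT : ∀ n, ‖T n‖ ≤ H) :
    ‖∑ n ∈ Icc 1 (3 * X), f n * ee ((n : ℝ) * α) * T n‖ ≤ 3 * X * (B * H) := by
  refine (norm_sum_le _ _).trans ((sum_le_card_nsmul _ _ (B * H) fun n _ => ?_).trans (le_of_eq ?_))
  · rw [norm_mul, norm_mul, norm_ee, mul_one]
    exact mul_le_mul (hf n) (hT n) (norm_nonneg _) hB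
  · rw [Nat.card_Icc, nsmul_eq_mul, Nat.add_sub_cancel]
    push_cast
    ring

lemma expo_real (ε : ℝ) (hε : 0 < ε) (A : ℝ) (hA : 0 ≤ A) :
    ∃ H₀ : ℝ, ∃ X₀ : ℕ, ∀ X : ℕ, X₀ ≤ X → ∀ r : ℕ → ℝ, (∀ l, |r l| ≤ 1) → ∀ H : ℝ, H₀ ≤ H → H ≤ X → ∀ T : ℕ → ℂ,
      (∀ n : ℕ, ‖T n‖ ≤ H) → (∀ n m : ℕ, ‖T n - T m‖ ≤ A * |(n : ℝ) - m|) → (∀ n : ℕ, 3 * X < n → T n = 0) →
      ∀ α : ℝ, ‖∑ n ∈ Icc 1 (3 * X), (((r (cardFactors n) - Mn r X) / 2 : ℝ) : ℂ) * ee ((n : ℝ) * α) * T n‖ ≤ ε * H * X := by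
  obtain ⟨H₀, X₀, h⟩ := expo_hom (ε / 2) (by positivity) A hA
  obtain ⟨m, hm⟩ : ∃ m : ℕ, m = ⌈12 / ε⌉₊ + 1 := ⟨_, rfl⟩
  have hm1 : 1 ≤ m := by omega
  have hm0 : (0 : ℝ) < m := by exact_mod_cast hm1
  have hmε : 12 / ε ≤ m := by
    rw [hm]
    push_cast
    linarith [Nat.le_ceil (12 / ε)]
  refine ⟨H₀, X₀, fun X hX r hr H hH hHX T hT hT2 hT3 α => ?_⟩
  have hH0 : 0 ≤ H := (norm_nonneg _).trans (hT 0)
  set e : ℕ → ℝ := fun l => r l - 1 / m * ∑ s ∈ range m, (lay m r s l : ℝ) with he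
  have heb : ∀ l, |e l| ≤ 2 / m := fun l => lay_sum m hm1 r hr l
  have hMe : |Mn e X| ≤ 2 / m := by
    rw [Mn_nat]
    rcases Nat.eq_zero_or_pos X with h0 | h0
    · rw [h0]
      simp only [Nat.cast_zero, div_zero, abs_zero]
      positivity
    · have hX0 : (0 : ℝ) < X := by exact_mod_cast h0
      rw [abs_div, abs_of_pos hX0, div_le_iff₀ hX0]
      refine (abs_sum_le_sum_abs _ _).trans ((sum_le_card_nsmul _ _ (2 / (m : ℝ)) fun n _ => heb _).trans (le_of_eq ?_))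
      rw [Nat.card_Icc, nsmul_eq_mul, Nat.add_sub_cancel, mul_comm]
  have hMlin : Mn r X = 1 / m * ∑ s ∈ range m, Mn (rl (lay m r s)) X + Mn e X := by
    simp only [Mn_nat]
    rw [← sum_div, sum_comm, mul_div_assoc', mul_sum, ← add_div, ← sum_add_distrib]
    congr 1
    apply sum_congr rfl
    intro n _
    rw [he]
    unfold rl
    ring
  have hdec : ∀ n, (((r (cardFactors n) - Mn r X) / 2 : ℝ) : ℂ) =
      1 / (m : ℂ) * ∑ s ∈ range m, ((((lay m r s (cardFactors n) : ℝ) - Mn (rl (lay m r s)) X) / 2 : ℝ) : ℂ) +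
        (((e (cardFactors n) - Mn e X) / 2 : ℝ) : ℂ) := by
    intro n
    have h1 : (r (cardFactors n) - Mn r X) / 2 =
        1 / (m : ℝ) * ∑ s ∈ range m, (((lay m r s (cardFactors n) : ℝ) - Mn (rl (lay m r s)) X) / 2) +
          (e (cardFactors n) - Mn e X) / 2 := by
      rw [← sum_div, sum_sub_distrib, hMlin, he]
      ring
    rw [h1]
    push_cast
    ring
  have hsplit : ∑ n ∈ Icc 1 (3 * X), (((r (cardFactors n) - Mn r X) / 2 : ℝ) : ℂ) * ee ((n : ℝ) * α) * T n =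
      1 / (m : ℂ) * ∑ s ∈ range m, ∑ n ∈ Icc 1 (3 * X),
        ((((lay m r s (cardFactors n) : ℝ) - Mn (rl (lay m r s)) X) / 2 : ℝ) : ℂ) * ee ((n : ℝ) * α) * T n +
      ∑ n ∈ Icc 1 (3 * X), (((e (cardFactors n) - Mn e X) / 2 : ℝ) : ℂ) * ee ((n : ℝ) * α) * T n := by
    rw [sum_comm, mul_sum, ← sum_add_distrib]
    apply sum_congr rfl
    intro n _
    rw [hdec n, add_mul, add_mul, mul_assoc, mul_assoc, sum_mul]
    congr 2
    apply sum_congr rfl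
    intro s _
    ring
  rw [hsplit]
  refine (norm_add_le _ _).trans ?_
  have h1 : ‖1 / (m : ℂ) * ∑ s ∈ range m, ∑ n ∈ Icc 1 (3 * X),
        ((((lay m r s (cardFactors n) : ℝ) - Mn (rl (lay m r s)) X) / 2 : ℝ) : ℂ) * ee ((n : ℝ) * α) * T n‖ ≤
      ε / 2 * H * X := by
    rw [norm_mul, norm_div, norm_one, Complex.norm_natCast]
    have h2 : ‖∑ s ∈ range m, ∑ n ∈ Icc 1 (3 * X),
        ((((lay m r s (cardFactors n) : ℝ) - Mn (rl (lay m r s)) X) / 2 : ℝ) : ℂ) * ee ((n : ℝ) * α) * T n‖ ≤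
        m * (ε / 2 * H * X) := by
      refine (norm_sum_le _ _).trans ((sum_le_card_nsmul _ _ (ε / 2 * H * X) fun s _ => ?_).trans (le_of_eq ?_))
      · exact h X hX _ ⟨lay m r s, fun l => lay_b m r s l, rfl⟩ H hH hHX T hT hT2 hT3 α
      · rw [card_range, nsmul_eq_mul]
    calc 1 / (m : ℝ) * _ ≤ 1 / (m : ℝ) * (m * (ε / 2 * H * X)) := mul_le_mul_of_nonneg_left h2 (by positivity)
      _ = ε / 2 * H * X := by field_simp
  have h2 : ‖∑ n ∈ Icc 1 (3 * X), (((e (cardFactors n) - Mn e X) / 2 : ℝ) : ℂ) * ee ((n : ℝ) * α) * T n‖ ≤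
      3 * X * (2 / m * H) := by
    apply phi_bd X H _ T α (2 / m) (by positivity) _ hT
    intro n
    rw [Complex.norm_real, Real.norm_eq_abs, abs_div, abs_two, div_le_iff₀ two_pos]
    refine (abs_sub _ _).trans ?_
    have := heb (cardFactors n)
    linarith
  have h3 : 3 * (X : ℝ) * (2 / m * H) ≤ ε / 2 * H * X := by
    have h4 : 6 / (m : ℝ) ≤ ε / 2 := by
      rw [div_le_iff₀ hε] at hmε
      rw [div_le_iff₀ hm0]
      linarith
    have h5 : 3 * (X : ℝ) * (2 / m * H) = 6 / m * (H * X) := by ring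
    rw [h5]
    have h6 : ε / 2 * H * X = ε / 2 * (H * X) := by ring
    rw [h6]
    exact mul_le_mul_of_nonneg_right h4 (by positivity)
  linarith

/-- half of a complex function of the number of prime factors minus its mean -/
def HomC (X : ℕ) (f : ℕ → ℂ) : Prop :=
  ∃ a : ℕ → ℂ, (∀ l, ‖a l‖ ≤ 1) ∧ f = fun n => (a (cardFactors n) - MC a X) / 2

lemma HomC_norm (X : ℕ) (f : ℕ → ℂ) (h : HomC X f) (n : ℕ) : ‖f n‖ ≤ 1 := by
  obtain ⟨a, ha, rfl⟩ := h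
  simp only
  rw [norm_div, Complex.norm_two, div_le_one two_pos]
  refine (norm_sub_le _ _).trans ?_
  have h1 := ha (cardFactors n)
  have h2 := MC_bd a 1 zero_le_one ha X
  linarith

lemma expo_homC : ExpoU HomC := by
  intro ε hε A hA
  obtain ⟨H₀, X₀, h⟩ := expo_real (ε / 2) (by positivity) A hA
  refine ⟨H₀, X₀, fun X hX f hf H hH hHX T hT hT2 hT3 α => ?_⟩
  obtain ⟨a, ha, rfl⟩ := hf
  have h1 := h X hX (fun l => (a l).re) (fun l => (Complex.abs_re_le_norm _).trans (ha l)) H hH hHX T hT hT2 hT3 α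
  have h2 := h X hX (fun l => (a l).im) (fun l => (Complex.abs_im_le_norm _).trans (ha l)) H hH hHX T hT hT2 hT3 α
  have h3 : ∑ n ∈ Icc 1 (3 * X), (fun n => (a (cardFactors n) - MC a X) / 2) n * ee ((n : ℝ) * α) * T n =
      ∑ n ∈ Icc 1 (3 * X), ((((a (cardFactors n)).re - Mn (fun l => (a l).re) X) / 2 : ℝ) : ℂ) * ee ((n : ℝ) * α) * T n +
      Complex.I * ∑ n ∈ Icc 1 (3 * X),
        ((((a (cardFactors n)).im - Mn (fun l => (a l).im) X) / 2 : ℝ) : ℂ) * ee ((n : ℝ) * α) * T n := by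
    rw [mul_sum, ← sum_add_distrib]
    apply sum_congr rfl
    intro n _
    simp only
    rw [MC_split]
    nth_rewrite 1 [← Complex.re_add_im (a (cardFactors n))]
    push_cast
    ring
  rw [h3]
  refine (norm_add_le _ _).trans ?_
  rw [norm_mul, Complex.norm_I, one_mul]
  linarith

/-- comparison of the means at two scales -/
lemma MC_scale (δ ε : ℝ) (hδ : 0 < δ) (hε : 0 < ε) : ∃ x₀ : ℕ, ∀ X Y : ℕ, x₀ ≤ X → δ * X ≤ Y → Y ≤ X →
    ∀ a : ℕ → ℂ, (∀ l, ‖a l‖ ≤ 1) → ‖MC a X - MC a Y‖ ≤ ε := by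
  obtain ⟨x₀, h⟩ := Mn_scale hδ (show 0 < ε / 2 by positivity)
  refine ⟨⌈x₀⌉₊, fun X Y hX hY1 hY2 a ha => ?_⟩
  have hX' : x₀ ≤ X := (Nat.le_ceil _).trans (by exact_mod_cast hX)
  have h1 := h X hX' Y hY1 (by exact_mod_cast hY2) (fun l => (a l).re) (fun l => (Complex.abs_re_le_norm _).trans (ha l))
  have h2 := h X hX' Y hY1 (by exact_mod_cast hY2) (fun l => (a l).im) (fun l => (Complex.abs_im_le_norm _).trans (ha l))
  rw [MC_split, MC_split]
  have h3 : ((Mn (fun l => (a l).re) X : ℝ) : ℂ) + ((Mn (fun l => (a l).im) X : ℝ) : ℂ) * Complex.I -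
      (((Mn (fun l => (a l).re) Y : ℝ) : ℂ) + ((Mn (fun l => (a l).im) Y : ℝ) : ℂ) * Complex.I) =
      ((Mn (fun l => (a l).re) X - Mn (fun l => (a l).re) Y : ℝ) : ℂ) +
      ((Mn (fun l => (a l).im) X - Mn (fun l => (a l).im) Y : ℝ) : ℂ) * Complex.I := by
    push_cast
    ring
  rw [h3]
  refine (norm_add_le _ _).trans ?_
  rw [norm_mul, Complex.norm_I, mul_one, Complex.norm_real, Complex.norm_real, Real.norm_eq_abs, Real.norm_eq_abs]
  linarith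

end Pool.Agent.J4.H65.SO
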