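import Pool.Agent.J4.H65.ShortOm

/-!
Products of functions of the numbers of prime factors at almost all short shifts: the main theorem.
-/

set_option autoImplicit false

namespace Pool.Agent.J4.H65.SO

open Finset
open ArithmeticFunction (cardFactors)
open Pool.Agent.TH575.OM
open Pool.Agent.H373R2.T7 (energy exI)
open Pool.Agent.TH445.OI (Good)

/-- one family of shifts, one exponent -/
lemma one_p (B Q p : ℕ) (C ε : ℝ) (hε : 0 < ε) : ∃ H₀ N₀ : ℕ, ∀ N : ℕ, N₀ ≤ N → ∀ H : ℕ, H₀ ≤ H → H ≤ N →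
    ∀ (x : ℕ) (s : ℕ → ℕ), Good H B p C x s → ∀ g : ℕ → ℂ, (∀ n, ‖g n‖ ≤ 1) → ∀ a : ℕ → ℂ, (∀ l, ‖a l‖ ≤ 1) →
    ∀ q : ℕ, 1 ≤ q → q ≤ Q → ∀ (Bad : ℕ → Prop) [DecidablePred Bad], (∀ m ∈ Icc 1 x, Bad m →
      ∃ y ≤ N, ε * N < ‖∑ n ∈ Icc 1 y, g n * (a (cardFactors (q * n + s m)) - MC a N)‖) →
    (((Icc 1 x).filter Bad).card : ℝ) ≤ ε * x := by
  set ε' : ℝ := ε / (4 * (B + 1)) with hε'
  have hε'0 : 0 < ε' := by positivity
  obtain ⟨H₀, N₀, h⟩ := few_shortU HomC HomC_norm expo_homC p ((B + 1) * C) Q 1 ε' hε'0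
  obtain ⟨x₀, hx₀⟩ := MC_scale (1 / (6 * (Q + 1) * (B + 1))) (ε / 4) (by positivity) (by positivity)
  refine ⟨H₀, N₀ + x₀ + 1, fun N hN H hH hHN x s hs g hg a ha q hq1 hqQ Bad _ hBad => ?_⟩
  have hN0 : (0 : ℝ) < N := by exact_mod_cast (by omega : 0 < N)
  set N' : ℕ := (B + 1) * N with hN'
  have hNN' : N ≤ N' := Nat.le_mul_of_pos_left _ (by omega)
  set H' : ℕ := (B + 1) * H with hH'
  have hHH' : H ≤ H' := Nat.le_mul_of_pos_left _ (by omega)
  set X : ℕ := 3 * (2 * (Q + 1) * N') with hX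
  have hNX : N ≤ X := by
    refine hNN'.trans ?_
    rw [hX, ← mul_assoc]
    exact Nat.le_mul_of_pos_left _ (by positivity)
  have hXN : (X : ℝ) = 6 * (Q + 1) * (B + 1) * N := by
    rw [hX, hN']
    push_cast
    ring
  have hsc := hx₀ X N (by omega) (by
    rw [hXN]
    apply le_of_eq
    field_simp) hNX a ha
  have key := h N' (by omega) (fun n => (a (cardFactors n) - MC a X) / 2) ⟨a, ha, rfl⟩ H' (by omega)
    (Nat.mul_le_mul_left _ hHN) x (fun m => (s m : ℤ)) (by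
      intro m hm
      rw [abs_of_nonneg (by positivity)]
      have h1 := hs.1 m hm
      have h2 : s m ≤ (B + 1) * H := h1.trans (Nat.mul_le_mul_right _ (by omega))
      exact_mod_cast h2) (by
      have h1 := hs.2
      have h2 : ((H' : ℕ) : ℝ) = (B + 1) * H := by rw [hH']; push_cast; ring
      rw [h2]
      have h3 : (energy p x (fun m => (s m : ℤ)) : ℝ) * ((B + 1) * H) =
        (B + 1) * ((energy p x (fun m => (s m : ℤ)) : ℝ) * H) := by ring
      rw [h3, mul_assoc]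
      exact mul_le_mul_of_nonneg_left h1 (by positivity)) (fun _ => q) (fun _ => 0) (fun _ => g)
    (fun _ _ => hq1) (fun _ _ => by positivity) (fun _ _ n => hg n) Bad (by
      intro m hm hb
      obtain ⟨y, hy, hlt⟩ := hBad m hm hb
      refine ⟨0, by omega, y, ?_, ?_⟩
      · calc q * y ≤ Q * N := Nat.mul_le_mul hqQ hy
          _ ≤ Q * N' := Nat.mul_le_mul_left _ hNN'
      · have e1 : ∀ n ∈ Icc 1 y, g n * exI (fun n => (a (cardFactors n) - MC a X) / 2) ((q : ℤ) * n + 0 + s m) =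
            (g n * (a (cardFactors (q * n + s m)) - MC a N) - g n * (MC a X - MC a N)) / 2 := by
          intro n hn
          rw [mem_Icc] at hn
          unfold exI
          have h1 : (1 : ℤ) ≤ (q : ℤ) * n + 0 + s m := by
            have : 1 ≤ q * n := Nat.mul_pos hq1 hn.1
            have h2 : (1 : ℤ) ≤ (q : ℤ) * n := by exact_mod_cast this
            have h3 : (0 : ℤ) ≤ s m := by positivity
            omega
          rw [if_pos h1]
          have h2 : ((q : ℤ) * n + 0 + s m).toNat = q * n + s m := by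
            have : ((q : ℤ) * n + 0 + s m) = ((q * n + s m : ℕ) : ℤ) := by push_cast; ring
            rw [this, Int.toNat_natCast]
          rw [h2]
          ring
        rw [sum_congr rfl e1, ← sum_div, sum_sub_distrib, norm_div, Complex.norm_two, lt_div_iff₀ two_pos]
        have e2 : ‖∑ n ∈ Icc 1 y, g n * (MC a X - MC a N)‖ ≤ ε / 4 * N := by
          refine (norm_sum_le _ _).trans ((sum_le_card_nsmul _ _ (ε / 4) fun n _ => ?_).trans ?_)
          · rw [norm_mul]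
            calc ‖g n‖ * ‖MC a X - MC a N‖ ≤ 1 * (ε / 4) := mul_le_mul (hg n) hsc (norm_nonneg _) zero_le_one
              _ = _ := one_mul _
          · rw [Nat.card_Icc, nsmul_eq_mul, Nat.add_sub_cancel, mul_comm]
            have : (y : ℝ) ≤ N := by exact_mod_cast hy
            exact mul_le_mul_of_nonneg_left this (by positivity)
        have e3 : ε' * (N' : ℝ) = ε / 4 * N := by
          rw [hε', hN']
          push_cast
          field_simp
        rw [e3]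
        have e4 := norm_sub_norm_le (∑ n ∈ Icc 1 y, g n * (a (cardFactors (q * n + s m)) - MC a N))
          (∑ n ∈ Icc 1 y, g n * (MC a X - MC a N))
        nlinarith)
  refine key.trans (mul_le_mul_of_nonneg_right ?_ (Nat.cast_nonneg x))
  rw [hε', div_le_iff₀ (by positivity)]
  have : (0 : ℝ) ≤ B := Nat.cast_nonneg B
  nlinarith

/-- one family of shifts -/
lemma one (B Q P : ℕ) (C ε : ℝ) (hε : 0 < ε) : ∃ H₀ N₀ : ℕ, ∀ N : ℕ, N₀ ≤ N → ∀ H : ℕ, H₀ ≤ H → H ≤ N →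
    ∀ p : ℕ, p ≤ P → ∀ (x : ℕ) (s : ℕ → ℕ), Good H B p C x s → ∀ g : ℕ → ℂ, (∀ n, ‖g n‖ ≤ 1) →
    ∀ a : ℕ → ℂ, (∀ l, ‖a l‖ ≤ 1) → ∀ q : ℕ, 1 ≤ q → q ≤ Q →
    ∃ E ⊆ Icc 1 x, (E.card : ℝ) ≤ ε * x ∧ ∀ m ∈ Icc 1 x, m ∉ E → ∀ y ≤ N,
      ‖∑ n ∈ Icc 1 y, g n * (a (cardFactors (q * n + s m)) - MC a N)‖ ≤ ε * N := by
  classical
  choose H₀ N₀ h using fun p => one_p B Q p C ε hε
  refine ⟨∑ p ∈ range (P + 1), H₀ p, ∑ p ∈ range (P + 1), N₀ p, fun N hN H hH hHN p hp x s hs g hg a ha q hq1 hqQ => ?_⟩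
  have hpm : p ∈ range (P + 1) := mem_range.2 (by omega)
  have h1 : H₀ p ≤ ∑ p ∈ range (P + 1), H₀ p := single_le_sum (f := H₀) (fun _ _ => Nat.zero_le _) hpm
  have h2 : N₀ p ≤ ∑ p ∈ range (P + 1), N₀ p := single_le_sum (f := N₀) (fun _ _ => Nat.zero_le _) hpm
  refine ⟨(Icc 1 x).filter (fun m => ∃ y ≤ N, ε * N < ‖∑ n ∈ Icc 1 y, g n * (a (cardFactors (q * n + s m)) - MC a N)‖),
    filter_subset _ _, ?_, ?_⟩
  · exact h p N (h2.trans hN) H (h1.trans hH) hHN x s hs g hg a ha q hq1 hqQ _ (fun m _ hm => hm)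
  · intro m hm hmE y hy
    by_contra hcon
    rw [not_le] at hcon
    exact hmE (mem_filter.2 ⟨hm, y, hy, hcon⟩)

/-- the tuple without its first entry -/
def tl {k : ℕ} (m : Fin (k + 1) → ℕ) : Fin k → ℕ := fun i => m i.succ

/-- counting the elements of a product by the first coordinate -/
lemma count_tail {k : ℕ} (x : Fin (k + 1) → ℕ) (S : Finset ℕ) (hS : S ⊆ Icc 1 (x 0)) (E : ℕ → Finset (Fin k → ℕ)) (D : ℝ)
    (hE : ∀ u ∈ S, ((E u).card : ℝ) ≤ D) :
    (((Fintype.piFinset fun i => Icc 1 (x i)).filter (fun m : Fin (k + 1) → ℕ => m 0 ∈ S ∧ tl m ∈ E (m 0))).card : ℝ) ≤ S.card * D := by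
  classical
  set F := (Fintype.piFinset fun i => Icc 1 (x i)).filter (fun m : Fin (k + 1) → ℕ => m 0 ∈ S ∧ tl m ∈ E (m 0)) with hF
  have h1 : F.card = ∑ u ∈ S, (F.filter (fun m : Fin (k + 1) → ℕ => m 0 = u)).card := by
    apply card_eq_sum_card_fiberwise
    intro m hm
    exact ((mem_filter.1 hm).2).1
  rw [h1]
  push_cast
  rw [← nsmul_eq_mul]
  apply sum_le_card_nsmul
  intro u hu
  refine le_trans ?_ (hE u hu)
  have h2 : (F.filter (fun m : Fin (k + 1) → ℕ => m 0 = u)).card ≤ (E u).card := by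
    apply card_le_card_of_injOn (fun m : Fin (k + 1) → ℕ => tl m)
    · intro m hm
      rw [mem_coe, mem_filter] at hm
      have h3 := ((mem_filter.1 hm.1).2).2
      rw [hm.2] at h3
      exact h3
    · intro m hm m' hm' heq
      rw [mem_coe, mem_filter] at hm hm'
      simp only at heq
      funext i
      refine Fin.cases ?_ (fun i' => ?_) i
      · rw [hm.2, hm'.2]
      · exact congrFun heq i'
  exact_mod_cast h2

lemma norm_prod_le_one {ι : Type*} (s : Finset ι) (f : ι → ℂ) (h : ∀ i ∈ s, ‖f i‖ ≤ 1) : ‖∏ i ∈ s, f i‖ ≤ 1 := by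
  rw [norm_prod]
  exact prod_le_one (fun _ _ => norm_nonneg _) h

/-- several families of shifts -/
theorem fam (B Q P : ℕ) (C : ℝ) (k : ℕ) : ∀ ε : ℝ, 0 < ε → ∃ H₀ N₀ : ℕ, ∀ N : ℕ, N₀ ≤ N → ∀ H : Fin k → ℕ,
    (∀ i, H₀ ≤ H i ∧ H i ≤ N) → ∀ p : Fin k → ℕ, (∀ i, p i ≤ P) → ∀ (x : Fin k → ℕ) (s : Fin k → ℕ → ℕ),
    (∀ i, Good (H i) B (p i) C (x i) (s i)) → ∀ g : ℕ → ℂ, (∀ n, ‖g n‖ ≤ 1) →
    ∀ a : Fin k → ℕ → ℂ, (∀ i l, ‖a i l‖ ≤ 1) → ∀ q : Fin k → ℕ, (∀ i, 1 ≤ q i ∧ q i ≤ Q) →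
    ∃ E ⊆ Fintype.piFinset (fun i => Icc 1 (x i)), (E.card : ℝ) ≤ ε * ∏ i, (x i : ℝ) ∧
      ∀ m ∈ Fintype.piFinset (fun i => Icc 1 (x i)), m ∉ E → ∀ y ≤ N,
        ‖∑ n ∈ Icc 1 y, g n * (∏ i, a i (cardFactors (q i * n + s i (m i))) - ∏ i, MC (a i) N)‖ ≤ ε * N := by
  classical
  induction k with
  | zero =>
    intro ε hε
    refine ⟨0, 0, fun N _ H _ p _ x s _ g _ a _ q _ => ⟨∅, empty_subset _, ?_, fun m _ _ y _ => ?_⟩⟩
    · simp only [card_empty, Nat.cast_zero, univ_eq_empty, prod_empty, mul_one]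
      exact hε.le
    · simp only [univ_eq_empty, prod_empty, sub_self, mul_zero, sum_const_zero, norm_zero]
      positivity
  | succ k ih =>
    intro ε hε
    obtain ⟨H₁, N₁, h1⟩ := ih (ε / 2) (by positivity)
    obtain ⟨H₂, N₂, h2⟩ := one B Q P C (ε / 2) (by positivity)
    refine ⟨H₁ + H₂, N₁ + N₂, fun N hN H hH p hp x s hs g hg a ha q hq => ?_⟩
    obtain ⟨E₀, hE₀s, hE₀c, hE₀⟩ := h2 N (by omega) (H 0) (le_trans (by omega) (hH 0).1) (hH 0).2 (p 0) (hp 0) (x 0) (s 0)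
      (hs 0) g hg (a 0) (ha 0) (q 0) (hq 0).1 (hq 0).2
    have h3 : ∀ u : ℕ, ∃ E ⊆ Fintype.piFinset (fun i : Fin k => Icc 1 (x i.succ)),
        (E.card : ℝ) ≤ ε / 2 * ∏ i : Fin k, (x i.succ : ℝ) ∧
        ∀ m ∈ Fintype.piFinset (fun i : Fin k => Icc 1 (x i.succ)), m ∉ E → ∀ y ≤ N,
        ‖∑ n ∈ Icc 1 y, (g n * a 0 (cardFactors (q 0 * n + s 0 u))) *
          (∏ i : Fin k, a i.succ (cardFactors (q i.succ * n + s i.succ (m i))) - ∏ i : Fin k, MC (a i.succ) N)‖ ≤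
          ε / 2 * N := by
      intro u
      refine h1 N (by omega) (fun i => H i.succ) (fun i => ⟨le_trans (by omega) (hH i.succ).1, (hH i.succ).2⟩)
        (fun i => p i.succ) (fun i => hp _) (fun i => x i.succ) (fun i => s i.succ) (fun i => hs _)
        (fun n => g n * a 0 (cardFactors (q 0 * n + s 0 u))) (fun n => ?_) (fun i => a i.succ) (fun i l => ha _ _)
        (fun i => q i.succ) (fun i => hq _)
      rw [norm_mul]
      exact mul_le_one₀ (hg n) (norm_nonneg _) (ha _ _)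
    choose E' hE's hE'c hE' using h3
    set Pi := Fintype.piFinset (fun i => Icc 1 (x i)) with hPi
    refine ⟨Pi.filter (fun m : Fin (k + 1) → ℕ => m 0 ∈ E₀ ∨ tl m ∈ E' (m 0)), filter_subset _ _, ?_, ?_⟩
    · have c1 := count_tail x E₀ hE₀s (fun _ => Fintype.piFinset (fun i : Fin k => Icc 1 (x i.succ)))
        (∏ i : Fin k, (x i.succ : ℝ)) (fun u _ => by
          rw [Fintype.card_piFinset]
          push_cast
          apply le_of_eq
          apply prod_congr rfl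
          intro i _
          rw [Nat.card_Icc, Nat.add_sub_cancel])
      have c2 := count_tail x (Icc 1 (x 0)) (Finset.Subset.refl _) E' (ε / 2 * ∏ i : Fin k, (x i.succ : ℝ)) (fun u _ => hE'c u)
      rw [← hPi] at c1 c2
      have c3 : Pi.filter (fun m : Fin (k + 1) → ℕ => m 0 ∈ E₀ ∨ tl m ∈ E' (m 0)) ⊆
          Pi.filter (fun m : Fin (k + 1) → ℕ => m 0 ∈ E₀ ∧ tl m ∈ Fintype.piFinset (fun i : Fin k => Icc 1 (x i.succ))) ∪
          Pi.filter (fun m : Fin (k + 1) → ℕ => m 0 ∈ Icc 1 (x 0) ∧ tl m ∈ E' (m 0)) := by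
        intro m hm
        rw [mem_filter] at hm
        rw [mem_union, mem_filter, mem_filter]
        have hm1 := hm.1
        rw [hPi, Fintype.mem_piFinset] at hm1
        rcases hm.2 with h4 | h4
        · left
          exact ⟨hm.1, h4, Fintype.mem_piFinset.2 fun i => hm1 i.succ⟩
        · right
          exact ⟨hm.1, hm1 0, h4⟩
      have c4 : ((Pi.filter (fun m : Fin (k + 1) → ℕ => m 0 ∈ E₀ ∨ tl m ∈ E' (m 0))).card : ℝ) ≤
          (Pi.filter (fun m : Fin (k + 1) → ℕ => m 0 ∈ E₀ ∧ tl m ∈ Fintype.piFinset (fun i : Fin k => Icc 1 (x i.succ)))).card +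
          (Pi.filter (fun m : Fin (k + 1) → ℕ => m 0 ∈ Icc 1 (x 0) ∧ tl m ∈ E' (m 0))).card := by
        exact_mod_cast (card_le_card c3).trans (card_union_le _ _)
      have c5 : (E₀.card : ℝ) * ∏ i : Fin k, (x i.succ : ℝ) ≤ (ε / 2 * x 0) * ∏ i : Fin k, (x i.succ : ℝ) :=
        mul_le_mul_of_nonneg_right hE₀c (prod_nonneg fun _ _ => Nat.cast_nonneg _)
      rw [Nat.card_Icc, Nat.add_sub_cancel] at c2
      rw [Fin.prod_univ_succ]
      nlinarith
    · intro m hm hmE y hy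
      rw [mem_filter, not_and_or, not_or] at hmE
      have hmE' := hmE.resolve_left (fun h => h hm)
      have hm1 := hm
      rw [hPi, Fintype.mem_piFinset] at hm1
      have g1 := hE₀ (m 0) (hm1 0) hmE'.1 y hy
      have g2 := hE' (m 0) (tl m) (Fintype.mem_piFinset.2 fun i => hm1 i.succ) hmE'.2 y hy
      have hsplit : ∑ n ∈ Icc 1 y, g n * (∏ i, a i (cardFactors (q i * n + s i (m i))) - ∏ i, MC (a i) N) =
          ∑ n ∈ Icc 1 y, (g n * a 0 (cardFactors (q 0 * n + s 0 (m 0)))) *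
            (∏ i : Fin k, a i.succ (cardFactors (q i.succ * n + s i.succ (tl m i))) - ∏ i : Fin k, MC (a i.succ) N) +
          (∏ i : Fin k, MC (a i.succ) N) * ∑ n ∈ Icc 1 y, g n * (a 0 (cardFactors (q 0 * n + s 0 (m 0))) - MC (a 0) N) := by
        rw [mul_sum, ← sum_add_distrib]
        apply sum_congr rfl
        intro n _
        rw [Fin.prod_univ_succ, Fin.prod_univ_succ]
        unfold tl
        ring
      rw [hsplit]
      refine (norm_add_le _ _).trans ?_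
      rw [norm_mul]
      have g3 : ‖∏ i : Fin k, MC (a i.succ) N‖ ≤ 1 := norm_prod_le_one _ _ fun i _ => MC_bd _ 1 zero_le_one (ha _) N
      have g4 : ‖∏ i : Fin k, MC (a i.succ) N‖ * ‖∑ n ∈ Icc 1 y, g n * (a 0 (cardFactors (q 0 * n + s 0 (m 0))) - MC (a 0) N)‖ ≤
          1 * (ε / 2 * N) := mul_le_mul g3 g1 (norm_nonneg _) zero_le_one
      linarith

end Pool.Agent.J4.H65.SO
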